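import Pool.Agent.Run7.h113.CL.Mz

/-!
# The circle problem along powers: a central limit theorem and square root cancellation

`P(R)` is the error term of the circle problem and `Z(R) = P(R) / √R`.  There is a probability measure `μ` on `ℝ`
without atoms, with full support, with finite moments of all orders and with mean zero, the limit law of `Z(R)` in all
windows `[R, R + H]` with `R ^ (3/4) ≤ H ≤ R`, such that the following holds.  Let `a_n` be real numbers with
`a_(n+1) ≥ a_n + δ`, `δ > 0`, let `b_n > 0` be nondecreasing, and let `R_n = b_n α ^ (a_n)` with `α > 1`.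

(1) For almost all `α > 1` and all real polynomials `f`,
`∑_(n < N) (f(Z(R_n)) - ∫ f dμ) = o(√N (log N)²)`.
For `f(x) = x` this is square root cancellation in the sums `∑_(n < N) P(R_n) / √R_n` of the normalized error terms.

(2) For every nonconstant real polynomial `f` with mean `m` and variance `v` with respect to `μ`, every measurable
`A ⊆ (1, ∞)` of finite measure and every real `x`,
`meas {α ∈ A : ∑_(n < N) (f(Z(R_n)) - m) ≤ x √(v N)} → meas(A) · Φ(x)`,
`Φ` the distribution function of the standard normal law.

So the normalized sums are, with respect to `α`, asymptotically normal with the variance of independent random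
variables with law `μ`, and asymptotically independent of `α` (mixing in the sense of Rényi).  The norming in (2) shows
that the exponent `1/2` of `N` in (1) cannot be replaced by a smaller one.

Proof.  Put `α = exp y`.  The error term is approximated, with an error which is summable over `n` for almost all `y`,
by the truncation `U_M` with `M = (n + 1) ^ p`.  The functions `f(U_M) - (constant term)` are trigonometric sums in `R`
whose frequencies are bounded and bounded away from zero by powers of `M` (a product over the conjugates of a sum of
square roots); as `R_n` grows exponentially in `n`, their integrals against each other over a compact `y`-interval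
decay exponentially in `max(n, m)`.  Hence the second moments of block sums are linear in the length, which gives (1)
by the dyadic maximal inequality of Rademacher and Menshov.  For (2) a fixed degree `M = K` suffices, up to an error of
small variance uniformly in `N`; for fixed `K` the sum is divided into blocks of length about `N ^ (1/8)` separated by
gaps of about the square root of this, the characteristic function of the sum over the first `j` blocks is integrated
against the second order expansion of the exponential of the next block, and oscillation leaves the factor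
`1 - t² v L / (2 N)`.  An amplitude gives the mixing property, Lévy's theorem the convergence of the laws.
-/

set_option autoImplicit false

open MeasureTheory Filter Topology Set

namespace Pool.Agent.Results.MP_fb29e9_nt.CentralLimit

/-- the error term of the circle problem -/
noncomputable def P (R : ℝ) : ℝ :=
  (Nat.card {p : ℤ × ℤ // (p.1 : ℝ) ^ 2 + (p.2 : ℝ) ^ 2 ≤ R ^ 2} : ℝ) - Real.pi * R ^ 2

/-- the normalized error term -/
noncomputable def Z (R : ℝ) : ℝ := P R / √R

theorem result : ∃ μ : ProbabilityMeasure ℝ, (∀ x : ℝ, (μ : Measure ℝ) {x} = 0) ∧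
    (∀ u v : ℝ, u < v → 0 < (μ : Measure ℝ) (Ioo u v)) ∧
    -- the law in windows
    (∀ x η : ℝ, 0 < η → ∃ R₀ : ℝ, ∀ R : ℝ, R₀ ≤ R → ∀ H : ℝ, R ^ (3 / 4 : ℝ) ≤ H → H ≤ R →
      |volume.real {r : ℝ | R < r ∧ r ≤ R + H ∧ P r ≤ x * √r} - (μ : Measure ℝ).real (Iic x) * H| ≤
        η * H) ∧
    -- finite moments, mean zero
    (∀ f : Polynomial ℝ, Integrable (fun x => f.eval x) (μ : Measure ℝ)) ∧ ∫ x, x ∂(μ : Measure ℝ) = 0 ∧
    ∀ (a b : ℕ → ℝ) (δ : ℝ), 0 < δ → (∀ n, a n + δ ≤ a (n + 1)) → (∀ n, 0 < b n) → Monotone b →
      -- the rate for almost all α
      (∀ᵐ α : ℝ, 1 < α → ∀ f : Polynomial ℝ,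
        Tendsto (fun N : ℕ => (∑ n ∈ Finset.range N, (f.eval (Z (b n * α ^ a n)) - ∫ x, f.eval x ∂(μ : Measure ℝ))) /
          (√N * Real.log N ^ 2)) atTop (𝓝 0)) ∧
      -- the central limit theorem with mixing
      ∀ (f : Polynomial ℝ), 0 < f.natDegree → ∀ (m v : ℝ), m = ∫ x, f.eval x ∂(μ : Measure ℝ) →
        v = ∫ x, (f.eval x - m) ^ 2 ∂(μ : Measure ℝ) → 0 < v ∧
        ∀ A : Set ℝ, MeasurableSet A → A ⊆ Ioi 1 → volume A < ⊤ → ∀ x : ℝ,
          Tendsto (fun N : ℕ =>
              volume.real {α | α ∈ A ∧ ∑ n ∈ Finset.range N, (f.eval (Z (b n * α ^ a n)) - m) ≤ x * √(v * N)})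
            atTop (𝓝 (volume.real A * (ProbabilityTheory.gaussianReal 0 1).real (Iic x))) :=
  Run7.h113.CL.cltMain0

end Pool.Agent.Results.MP_fb29e9_nt.CentralLimit
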