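import Pool.Agent.Run7.h113.MaxMain

/-!
# The maximal order of the error term of the circle problem along almost every geometric progression

`P(R)` is the error term of the circle problem: the number of integer points in the disc of radius `R` about the
origin, minus `π R²`.  Let `V(x) = (log x)^(1/4) (log log x)^((3/4) (2^(1/3) - 1))`.

There are absolute constants `0 < c`, `0 < C` with the following property.  Let `a_n` be real numbers with
`a_{n+1} ≥ a_n + δ`, `δ > 0`, and let `b_n > 0` be nondecreasing, for example `a_n = n` and `b_n = 1`.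
Then for almost all `α > 1` the radii `R_n = b_n α^(a_n)` satisfy, for all sufficiently large `N`,

* `|P(R_n)| ≤ C V(N) √R_n` for all `n ≤ N`;
* `P(R_n) ≥ c V(N) √R_n` for some `n` with `N / 8 ≤ n < N`;
* `P(R_n) ≤ -c V(N) √R_n` for some `n` with `N / 8 ≤ n < N`.

So the maxima of `P(R_n) / √R_n` and of `-P(R_n) / √R_n` over `n ≤ N` are both of exact order
`(log N)^(1/4) (log log N)^((3/4) (2^(1/3) - 1))`.

Proof.  `Z(R) = P(R) / √R` is close in mean square to the sum of `r(m) m^(-3/4) cos(2π R √m - 3π/4) / π` over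
`m ≤ M²`, where `M = (n+1)^400`.

Upper bound: the moment of order `2p`, `p = ⌊(log n) / 2⌋`, is estimated; the differences of the frequencies
involved are nonzero sums of `2p` square roots of integers, hence at least `(2 p M)^(-4^p)` in absolute value, which is
small compared with `R_n`, as `4^p` is at most a power of `n` with exponent less than one.  The diagonal
is the moment of a sum of independent variables indexed by squarefree `D`, bounded by means of the moment generating
function; the variables with `D` small are bounded in absolute value and those with `D` large in mean square.  Both sums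
are computed from the asymptotics of the number of squarefree `D` with `r(D)` of given size, by means of Mertens'
theorem for the primes `1 mod 4` (the exponent `2^(1/3) - 1` comes from here).

Lower bound: second moment of the sum over a sparse set of `n` in `[4^k, 2 4^k)` of the product of `Z - v` with a Riesz
product over `≤ k/4` squarefree numbers `D`; the frequencies are sums of `≤ k/4 + 1` square roots.
-/

set_option autoImplicit false

open MeasureTheory Filter Topology Set

namespace Pool.Agent.Results.MP_fb29e9_nt.MaximalOrder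

/-- the error term of the circle problem -/
noncomputable def P (R : ℝ) : ℝ :=
  (Nat.card {p : ℤ × ℤ // (p.1 : ℝ) ^ 2 + (p.2 : ℝ) ^ 2 ≤ R ^ 2} : ℝ) - Real.pi * R ^ 2

/-- the order of the maxima -/
noncomputable def V (x : ℝ) : ℝ :=
  (Real.log x) ^ (1 / 4 : ℝ) * (Real.log (Real.log x)) ^ (3 / 4 * (2 ^ (1 / 3 : ℝ) - 1) : ℝ)

theorem result : ∃ c C : ℝ, 0 < c ∧ 0 < C ∧
    ∀ (a b : ℕ → ℝ) (δ : ℝ), 0 < δ → (∀ n, a n + δ ≤ a (n + 1)) → (∀ n, 0 < b n) → Monotone b →
      ∀ᵐ α : ℝ, 1 < α → ∀ᶠ N : ℕ in atTop,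
        (∀ n : ℕ, n ≤ N → |P (b n * α ^ (a n))| ≤ C * V N * √(b n * α ^ (a n))) ∧
        (∃ n : ℕ, N ≤ 8 * n ∧ n < N ∧ c * V N * √(b n * α ^ (a n)) ≤ P (b n * α ^ (a n))) ∧
        (∃ n : ℕ, N ≤ 8 * n ∧ n < N ∧ P (b n * α ^ (a n)) ≤ -(c * V N * √(b n * α ^ (a n)))) := by
  obtain ⟨c, C, hc, hC, h⟩ := Run7.h113.max_main
  refine ⟨c, C, hc, hC, fun a b δ h1 h2 h3 h4 => ?_⟩
  filter_upwards [h a b δ h1 h2 h3 h4] with α hα hα1
  have hR : ∀ n, 0 < √(b n * α ^ (a n)) := fun n =>
    Real.sqrt_pos.mpr (mul_pos (h3 n) (Real.rpow_pos_of_pos (by linarith) _))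
  have hV : ∀ x : ℝ, Run7.h113.VV x = V x := by
    intro x
    unfold Run7.h113.VV V Run7.h113.gam Pool.Agent.H452R2.Om.zz
    congr 3
    rw [show (4/3:ℝ) = 1/3 + 1 by norm_num, Real.rpow_add (by norm_num), Real.rpow_one]
    ring
  have hE : ∀ R : ℝ, Pool.Agent.H383.Gauss.En R = P R / √R := fun R => (Pool.Agent.R306.Circ.P_En R).symm
  filter_upwards [hα hα1] with N hN
  obtain ⟨g1, ⟨n, g2, g3, g4⟩, ⟨m, g5, g6, g7⟩⟩ := hN
  refine ⟨fun n hn => ?_, ⟨n, g2, g3, ?_⟩, ⟨m, g5, g6, ?_⟩⟩
  · have := g1 n hn
    rwa [hE, hV, abs_div, abs_of_pos (hR n), div_le_iff₀ (hR n)] at this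
  · rwa [hE, hV, le_div_iff₀ (hR n)] at g4
  · rw [hE, hV, div_le_iff₀ (hR m)] at g7
    linarith

end Pool.Agent.Results.MP_fb29e9_nt.MaximalOrder
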