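import Pool.Agent.Run7.h113.MT.Main

/-!
# The circle problem along dilated sequences: a metric theorem of Weyl type

`P(R)` is the error term of the circle problem and `Z(R) = P(R) / √R`.  There is a probability measure `μ` on `ℝ`
without atoms and with full support, the limit law of `Z(R)` in all windows `[R, R + H]` with `R ^ (3/4) ≤ H ≤ R`,
such that the following holds.  Let `a_1, …, a_k` be sequences of positive real numbers whose gaps are bounded from
below, `a_j(n+1) ≥ a_j(n) + δ` with `δ > 0`, and let `0 ≤ b_j(n) ≤ B a_j(n)`.  Then for almost all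
`(α_1, …, α_k) ∈ (0, ∞) ^ k` the vectors

`(Z(α_1 a_1(n) + b_1(n)), …, Z(α_k a_k(n) + b_k(n)))`

have the limit law `μ ⊗ … ⊗ μ` with respect to the natural density of `n`: the averages of all continuous functions
of at most quadratic growth converge, and the joint frequencies converge.

For `k = 1` this is the analogue for `P` of Weyl's metric theorem on the distribution of `α a_n` modulo one: along
`α a_n`, `a_n` any sequence with gaps bounded from below, for example the squares, the primes, `n!` or `⌊n log n⌋ + 1`,
the error term has for almost all `α` the distribution which it has for a random radius.  For general `k` it says that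
the error terms along different dilates (of the same sequence or of different sequences) are asymptotically independent.

Proof.  Let `U_M` be the truncation of the trigonometric series of `Z`.  The differences `Z(R) - U_M(R)` at
`R = α a_n + b_n` are small in mean square with respect to `α` in a compact interval if `M` is a small power of `a_n`;
with `M = M(j)` on the dyadic block `2^j ≤ n < 2^(j+1)` growing slowly the sums of the mean squares over the blocks
converge.  The second moments of the block averages of differences of model polynomials are bounded by means of the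
integrals of `e(ω α (a_n - a_m))` with respect to `α`, and the gap condition.  For a fixed model polynomial the mixed
moments are sums of Weyl sums `∑ e(∑_j ω_j (α_j a_j(n) + b_j(n)))`, where the `ω_j` are sums of square roots, which are
`o(N)` for almost all `(α_1, …, α_k)` unless all `ω_j` vanish; the terms with `ω_1 = … = ω_k = 0` factor.
-/

set_option autoImplicit false

open MeasureTheory Filter Topology Set

namespace Pool.Agent.Results.MP_fb29e9_nt.MetricDilates

/-- the error term of the circle problem -/
noncomputable def P (R : ℝ) : ℝ :=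
  (Nat.card {p : ℤ × ℤ // (p.1 : ℝ) ^ 2 + (p.2 : ℝ) ^ 2 ≤ R ^ 2} : ℝ) - Real.pi * R ^ 2

/-- the normalized error term -/
noncomputable def Z (R : ℝ) : ℝ := P R / √R

theorem result : ∃ μ : ProbabilityMeasure ℝ, (∀ x : ℝ, (μ : Measure ℝ) {x} = 0) ∧
    (∀ u v : ℝ, u < v → 0 < (μ : Measure ℝ) (Ioo u v)) ∧
    -- the law in windows
    (∀ x η : ℝ, 0 < η → ∃ R₀ : ℝ, ∀ R : ℝ, R₀ ≤ R → ∀ H : ℝ, R ^ (3 / 4 : ℝ) ≤ H → H ≤ R →
      |volume.real {r : ℝ | R < r ∧ r ≤ R + H ∧ P r ≤ x * √r} - (μ : Measure ℝ).real (Iic x) * H| ≤
        η * H) ∧
    -- almost all dilates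
    ∀ (k : ℕ) (a b : Fin k → ℕ → ℝ) (δ B : ℝ), 0 < δ → (∀ j, 0 < a j 0) →
      (∀ j n, a j n + δ ≤ a j (n + 1)) → (∀ j n, 0 ≤ b j n ∧ b j n ≤ B * a j n) →
      ∀ᵐ α : Fin k → ℝ, (∀ j, 0 < α j) →
        -- averages of all continuous functions of at most quadratic growth
        (∀ f : (Fin k → ℝ) → ℝ, Continuous f → (∃ C : ℝ, ∀ x, |f x| ≤ C * (1 + ‖x‖ ^ 2)) →
          Integrable f (Measure.pi fun _ : Fin k => (μ : Measure ℝ)) ∧
          Tendsto (fun N : ℕ => (∑ n ∈ Finset.range N, f (fun j => Z (α j * a j n + b j n))) / (N : ℝ)) atTop
            (𝓝 (∫ x, f x ∂(Measure.pi fun _ : Fin k => (μ : Measure ℝ))))) ∧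
        -- joint frequencies
        (∀ u : Fin k → ℝ, Tendsto (fun N : ℕ =>
            (((Finset.range N).filter fun n => ∀ j : Fin k, Z (α j * a j n + b j n) ≤ u j).card : ℝ) / N) atTop
          (𝓝 (∏ j, (μ : Measure ℝ).real (Iic (u j))))) :=
  Run7.h113.MT.dilMain

end Pool.Agent.Results.MP_fb29e9_nt.MetricDilates
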