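import Pool.Agent.Run7.h430.TW.Circ
import Pool.Agent.Run7.h430.TW.Orb

/-!
# The circle problem at the members of almost all orbits of Euler's function

Let `N(n)` be the number of the points of `ℤ²` with `x² + y² ≤ n`, so that the circle problem asks for
`N(n) - π n = O(n^(1/4 + η))`, or for `O(R^(1/2 + η))` in terms of the radius `R = √n`. Let `φ_k` be the `k`-th iterate of
Euler's function, `φ_0(m) = m`.

* Let `f` be a positive multiplicative function of at most polynomial growth such that `f p ≤ M p` for the large primes `p`,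
  with different values at different large primes (the identity, Euler's function, the sum of the divisors), and let `G`
  have steps bounded below by a positive constant and growth at most `v^d`, for example `G v = α v^d`. Let `0 < η ≤ 1/2`,
  `κ ≥ 0`, `d (1 - 2 η) + κ < 1`. There is `K(m)` tending to infinity such that for almost all `m`, for all `k ≤ K(m)`, with
  `v = f(φ_k(m))`, the bound of the circle problem holds with exponent `1/4 + η` at ALL integers `n`, and with exponent
  `1/2 + η` for ALL integral radii `R`, within `v^κ` of `G v`. For `d = 1` all `η > 0` are admissible, with `κ < 2 η`.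
* If moreover `f p = p + c` for the large primes, then for every `ψ` tending to infinity, however slowly, there is `κ(m)`
  tending to infinity such that for almost all `m` the bound `|N(n) - π n| ≤ n^(1/4) (log n)^ψ(n)` holds for ALL
  `n = α f(φ_k m) + h`, `k, α, |h| ≤ κ(m)`. This is best possible but for powers of the logarithm, since `N(n) - π n` is of
  order `n^(1/4)` on average.

The iterates of Euler's function are not multiplicative, their values form a thin set and are taken with very large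
multiplicities, so that the mean square of `N(n) - π n` over all `n` gives nothing by itself.

Proof. Mean squares over all integers and over all integral radii (`W24/CP/MS`, `H452R2`, starting files). For the windows:
the exceptional sets have a power saving, tool `N760/IT` (starting files). For the second part the exceptional set has no power
saving: `N(n)` increases, so a large error at `n` persists in an interval of length `q`, to the right or to the left of
`n`, and these intervals are disjoint for the members of a class modulo `q`; so the exceptions are rare in all classes of all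
moduli `q ≤ X^(1/5)` (`Run7/h430/OT/Win`), and the sieve argument of `N826/IT` (starting files), adapted to so small moduli in
`Run7/h430/OT/{A,B,C,D}`, applies.
-/

set_option autoImplicit false

namespace Pool.Agent.Results.MP_fb29e9_nt.TotientOrbits

open Finset Filter Topology

/-- the number of the points `(x, y)` of `ℤ²` with `x² + y² ≤ n` -/
noncomputable def N (n : ℕ) : ℕ := Nat.card {p : ℤ × ℤ // p.1 ^ 2 + p.2 ^ 2 ≤ (n : ℤ)}

/-- A positive multiplicative function of at most polynomial growth, at most `M p` at the large primes `p` and with different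
values at different large primes. -/
structure Moderate (f : ℕ → ℕ) : Prop where
  mul : ∀ m n : ℕ, Nat.Coprime m n → f (m * n) = f m * f n
  pos : ∀ m : ℕ, 1 ≤ m → 1 ≤ f m
  growth : ∃ C D : ℕ, ∀ m : ℕ, 1 ≤ m → f m ≤ C * m ^ D
  prime : ∃ P M : ℕ, ∀ p : ℕ, P ≤ p → p.Prime → f p ≤ M * p ∧ ∀ q : ℕ, P ≤ q → q.Prime → f q = f p → q = p

/-- A positive multiplicative function of at most polynomial growth with `f p = p + c` for all large primes `p`. -/
structure Shifted (f : ℕ → ℕ) (c : ℤ) : Prop where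
  mul : ∀ m n : ℕ, Nat.Coprime m n → f (m * n) = f m * f n
  pos : ∀ m : ℕ, 1 ≤ m → 1 ≤ f m
  growth : ∃ C D : ℕ, ∀ m : ℕ, 1 ≤ m → f m ≤ C * m ^ D
  prime : ∃ P : ℕ, ∀ p : ℕ, P ≤ p → p.Prime → (f p : ℤ) = p + c

/-- The steps of `G` are at least a positive constant, and `G` grows at most like `v ^ d`, `d ≥ 1`. -/
structure Expanding (G : ℕ → ℝ) (d : ℝ) : Prop where
  one_le : 1 ≤ d
  step : ∃ a : ℝ, 0 < a ∧ ∀ v : ℕ, 1 ≤ v → a ≤ G (v + 1) - G v
  growth : ∃ C : ℝ, ∀ v : ℕ, 1 ≤ v → G v ≤ C * (v : ℝ) ^ d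

open Classical in
/-- The proportion of the positive integers `m ≤ N` without the property `P` tends to `0`. -/
def AlmostAll (P : ℕ → Prop) : Prop :=
  Tendsto (fun N : ℕ => (((Icc 1 N).filter (fun m => ¬ P m)).card : ℝ) / N) atTop (𝓝 0)

/-- the value of `f` at the `k`-th iterate of Euler's function -/
def orb (f : ℕ → ℕ) (k m : ℕ) : ℕ := f (Nat.totient^[k] m)

/-- **The circle problem along the orbits of Euler's function.** -/
theorem result :
    (∀ f : ℕ → ℕ, Moderate f → ∀ (G : ℕ → ℝ) (d : ℝ), Expanding G d → ∀ η κ : ℝ, 0 < η → 2 * η ≤ 1 → 0 ≤ κ →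
      d * (1 - 2 * η) + κ < 1 → ∃ K : ℕ → ℕ, Tendsto K atTop atTop ∧
        AlmostAll (fun m => ∀ k ≤ K m,
          (∀ n : ℕ, 1 ≤ n → |(n : ℝ) - G (orb f k m)| ≤ (orb f k m : ℝ) ^ κ →
            |(N n : ℝ) - Real.pi * n| ≤ (n : ℝ) ^ (1 / 4 + η)) ∧
          (∀ R : ℕ, 1 ≤ R → |(R : ℝ) - G (orb f k m)| ≤ (orb f k m : ℝ) ^ κ →
            |(N (R ^ 2) : ℝ) - Real.pi * R ^ 2| ≤ (R : ℝ) ^ (1 / 2 + η)))) ∧
    (∀ (f : ℕ → ℕ) (c : ℤ), Shifted f c → ∀ ψ : ℕ → ℝ, Tendsto ψ atTop atTop → ∃ κ : ℕ → ℕ, Tendsto κ atTop atTop ∧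
      AlmostAll (fun m => ∀ k α : ℕ, ∀ h : ℤ, k ≤ κ m → 1 ≤ α → α ≤ κ m → |h| ≤ κ m →
        0 < (α : ℤ) * orb f k m + h ∧ ∀ n : ℕ, (n : ℤ) = (α : ℤ) * orb f k m + h →
          |(N n : ℝ) - Real.pi * n| ≤ (n : ℝ) ^ (1 / 4 : ℝ) * Real.log n ^ ψ n)) ∧
    (Moderate (fun m => m) ∧ Moderate Nat.totient ∧ Moderate (fun m => ∑ d ∈ m.divisors, d)) ∧
    (Shifted (fun m => m) 0 ∧ Shifted Nat.totient (-1) ∧ Shifted (fun m => ∑ d ∈ m.divisors, d) 1) ∧
    ∀ α d : ℝ, 0 < α → 1 ≤ d → Expanding (fun v => α * (v : ℝ) ^ d) d := by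
  refine ⟨fun f hf G d hG η κ hη hη1 hκ h1 => ?_, fun f c hf ψ hψ => ?_, ?_, ?_, fun α d hα hd => ?_⟩
  · have hLM : Pool.Agent.N733.TG.LM f := ⟨hf.mul, hf.pos, hf.growth, hf.prime⟩
    have hE : Pool.Agent.N733.TG.Expanding G d := ⟨hG.one_le, hG.step, hG.growth⟩
    have a1 := Pool.Agent.N760.IT.orbit_good_nat (fun _ => True)
      (fun n => |Run7.h430.TW.P n| ≤ (n : ℝ) ^ (1 / 4 + η)) hLM hE (s := 1 - 2 * η) (κ := κ) (by linarith) hκ h1
      (fun ε hε => Run7.h430.TW.circ_count η hη hη1 ε hε)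
    have a2 := Pool.Agent.N760.IT.orbit_good_nat (fun _ => True)
      (fun n => |Run7.h430.TW.P (n ^ 2)| ≤ (n : ℝ) ^ (1 / 2 + η)) hLM hE (s := 1 - 2 * η) (κ := κ) (by linarith) hκ h1
      (fun ε hε => Run7.h430.TW.circ_countR η hη hη1 ε hε)
    obtain ⟨K, hK, hK2⟩ := Run7.h430.TW.orbit_and a1 a2
    refine ⟨K, hK, Pool.Agent.N826.IT.Orb.almostAll_mono hK2 (fun m hm k hk => ⟨fun n hn hw => ?_, fun R hR hw => ?_⟩)⟩
    · exact (hm k hk).1 n hn trivial hw
    · have h2 := (hm k hk).2 R hR trivial hw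
      unfold Run7.h430.TW.P at h2
      push_cast at h2
      exact h2
  · have hS : Pool.Agent.N826.IT.Orb.Shifted f c := ⟨hf.mul, hf.pos, hf.growth, hf.prime⟩
    obtain ⟨κ, hκ, h2⟩ := Run7.h430.OT.orbitsM
      (fun _ n => |Run7.h430.TW.P n| ≤ (n : ℝ) ^ (1 / 4 : ℝ) * Real.log n ^ ψ n)
      ⟨fun _ _ _ _ _ h => h, fun _ h => ⟨5, fun A => Run7.h430.OT.cbm_of_err Run7.h430.TW.err_P ψ hψ h A⟩⟩ hS
    refine ⟨κ, hκ, Pool.Agent.N826.IT.Orb.almostAll_mono h2 (fun m hm k α h hk hα1 hα hh => ?_)⟩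
    obtain ⟨h3, h4⟩ := hm k α h hk hα1 hα hh
    refine ⟨by unfold orb; omega, fun n hn => ?_⟩
    unfold orb at hn
    rw [← hn, Int.toNat_natCast] at h4
    exact h4
  · exact ⟨⟨Pool.Agent.N760.IT.lm_id.mul, Pool.Agent.N760.IT.lm_id.pos, Pool.Agent.N760.IT.lm_id.growth,
        Pool.Agent.N760.IT.lm_id.prime⟩,
      ⟨Pool.Agent.N733.TG.lm_totient.mul, Pool.Agent.N733.TG.lm_totient.pos, Pool.Agent.N733.TG.lm_totient.growth,
        Pool.Agent.N733.TG.lm_totient.prime⟩,
      ⟨Pool.Agent.N733.TG.lm_sigma.mul, Pool.Agent.N733.TG.lm_sigma.pos, Pool.Agent.N733.TG.lm_sigma.growth,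
        Pool.Agent.N733.TG.lm_sigma.prime⟩⟩
  · have g : ∀ {f : ℕ → ℕ} {c : ℤ}, Pool.Agent.N826.IT.Orb.Shifted f c → Shifted f c :=
      fun h => ⟨h.mul, h.pos, h.growth, h.prime⟩
    exact ⟨g Pool.Agent.N826.IT.Orb.shifted_id, g Pool.Agent.N826.IT.Orb.shifted_totient,
      g Pool.Agent.N826.IT.Orb.shifted_sigma⟩
  · obtain ⟨h1, h2, h3⟩ := Pool.Agent.N733.TG.expanding_pow hα hd
    exact ⟨h1, h2, h3⟩

end Pool.Agent.Results.MP_fb29e9_nt.TotientOrbits
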